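import Pool.Agent.V11251.DS.ArbI

/-!
# All prime triples with short differences, continued by palindromic shifts

The analytic input (the laws of the random integers, second moments of the error for one form with arbitrary weights) is
in the starting files `Pool.Agent.H373R2.T7`, `Pool.Agent.W93`, `Pool.Agent.TH872`; new are the systems of several forms
with arbitrary weights and the passage to primes (`Pool.Agent.V11251.DS`).
-/

set_option autoImplicit false

namespace Pool.Agent.Results.MP_1039f5_nt.PalindromicContinuations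

open Finset

/-- `v` is a palindrome with exactly `k` digits in base `b`: the digit number `j` (which is
`v / b ^ j % b`) is equal to the digit number `k - 1 - j`, for all `j < k`. -/
def IsPalindrome (b k v : ℕ) : Prop :=
  b ^ (k - 1) ≤ v ∧ v < b ^ k ∧ ∀ j < k, v / b ^ j % b = v / b ^ (k - 1 - j) % b

open Classical in
/-- The palindromes with exactly `k` digits in base `b`. -/
noncomputable def pal (b k : ℕ) : Finset ℕ := (range (b ^ k)).filter (IsPalindrome b k)

open Classical in
/-- The sieve model of the indicator function of the primes: `1 / (log x ∏_{p ≤ z} (1 - 1 / p))` if `x ≥ 2` has no prime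
factor `≤ z`, and `0` if `x = 0` or if `x` has a prime factor `≤ z` (for `x = 1` the logarithm is replaced by `log 2`). -/
noncomputable def model (z x : ℕ) : ℝ :=
  if 1 ≤ x ∧ ∀ p : ℕ, p.Prime → p ≤ z → ¬ p ∣ x then
    1 / (Real.log (max x 2 : ℕ) * ∏ p ∈ (Icc 1 z).filter Nat.Prime, (1 - 1 / (p : ℝ))) else 0

open Classical in
/-- The primes `p ≤ X` for which `p - d` and `p - d'` are primes. -/
noncomputable def triples (d' d X : ℕ) : Finset ℕ := (Icc 1 X).filter (fun p => p.Prime ∧ (p - d).Prime ∧ (p - d').Prime)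

open Classical in
/-- The primes `p ≤ X` for which `p - d`, `p - d'` and all the numbers `p + Y i` are primes. -/
noncomputable def continued {s : ℕ} (d' d : ℕ) (Y : Fin s → ℕ) (X : ℕ) : Finset ℕ :=
  (triples d' d X).filter (fun p => ∀ i, (p + Y i).Prime)

/-- For all `1 ≤ d' < d ≤ log ^ K N` and for all `X ≤ N`, the number of the primes `p ≤ X` for which `p - d`, `p - d'` and
all the `p + Y i` are primes is equal to the sum of the products of the models of `p + Y i` over the primes `p ≤ X` for
which `p - d` and `p - d'` are primes, up to an error of at most `N / log ^ U N`. -/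
def Good {s : ℕ} (z K U N : ℕ) (Y : Fin s → ℕ) : Prop :=
  ∀ d' d : ℕ, 1 ≤ d' → d' < d → (d : ℝ) ≤ Real.log N ^ K → ∀ X ≤ N,
    |((continued d' d Y X).card : ℝ) - ∑ p ∈ triples d' d X, ∏ i, model z (p + Y i)| ≤ N / Real.log N ^ U

open Classical in
/-- Let `s`, bases `b i ≥ 2` and `κ i ≥ 1` (`i < s`), `B`, `K` and `U` be fixed, let `E` be a sufficiently large exponent,
let `N` be large, `log ^ E N ≤ z ≤ log ^ (E + 1) N`, let `k i` be lengths with `N / B ≤ b i ^ k i ≤ B N`, and let
`0 ≤ c i ≤ B N`. Then all the vectors `(v 1, ..., v s)` of palindromes `v i` with exactly `k i` digits in base `b i`, with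
the exception of a proportion of at most `1 / log ^ U N` of these vectors, have the following property with
`Y i = c i + κ i v i`, for all
`1 ≤ d' < d ≤ log ^ K N` and all `X ≤ N`: the number of the primes `p ≤ X` for which `p - d`, `p - d'` and all the
`p + Y i` are primes is the number predicted by the sieve model, up to an error of at most `N / log ^ U N`: the sum, over
the primes `p ≤ X` for which `p - d` and `p - d'` are primes and no `p + Y i` has a prime factor `≤ z`, of the products of
the `1 / (log (p + Y i) ∏_{r ≤ z} (1 - 1 / r))`. -/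
theorem result (s : ℕ) (b : Fin s → ℕ) (hb : ∀ i, 2 ≤ b i) (κ : Fin s → ℕ) (hκ : ∀ i, 1 ≤ κ i) (B K U : ℕ) :
    ∃ E₀ : ℕ, ∀ E : ℕ, E₀ ≤ E → ∃ N₀ : ℕ, ∀ N, N₀ ≤ N → ∀ k : Fin s → ℕ, (∀ i, N ≤ B * b i ^ k i ∧ b i ^ k i ≤ B * N) →
      ∀ c : Fin s → ℕ, (∀ i, c i ≤ B * N) → ∀ z : ℕ, Real.log N ^ E ≤ z → (z : ℝ) ≤ Real.log N ^ (E + 1) →
      (((Fintype.piFinset fun i => pal (b i) (k i)).filter fun v => ¬ Good z K U N (fun i => c i + κ i * v i)).card : ℝ) ≤
      ((Fintype.piFinset fun i => pal (b i) (k i)).card : ℝ) / Real.log N ^ U := by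
  obtain ⟨E₀, h⟩ := Pool.Agent.V11251.DS.idx_pal s b hb (fun i => (κ i : ℤ)) (fun _ => 1)
    (fun i => by have := hκ i; exact_mod_cast (by omega : κ i ≠ 0)) (fun _ => by norm_num) B (2 * K) U
  refine ⟨E₀, fun E hE => ?_⟩
  obtain ⟨N₀, h1⟩ := h E hE
  refine ⟨N₀ + 8, fun N hN k hk c hc z hz1 hz2 => ?_⟩
  have hlog : 2 ≤ Real.log N := by
    have h8 : Real.log 8 ≤ Real.log N := Real.log_le_log (by norm_num) (by exact_mod_cast (by omega : 8 ≤ N))
    have h9 : Real.log 8 = 3 * Real.log 2 := by rw [← Real.log_rpow (by norm_num)]; norm_num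
    have := Real.log_two_gt_d9
    linarith
  have e1 : (Fintype.piFinset fun i => pal (b i) (k i)) =
      Fintype.piFinset (fun i => Pool.Agent.TH872.Mir.Pals (b i) (k i)) := by
    congr 1
  rw [e1]
  refine h1 N (by omega) k (fun i => ⟨(hk i).2, (hk i).1⟩) (fun i => (c i : ℤ))
    (fun i => by rw [abs_of_nonneg (by positivity)]; exact_mod_cast hc i) z hz1 hz2 (ℕ × ℕ) ((Icc 1 ⌊Real.log N ^ K⌋₊) ×ˢ (range ⌊Real.log N ^ K⌋₊)) (Pool.Agent.V11251.DS.card_classes N K hlog) (fun D => {n | n.Prime ∧ (n - D.1).Prime ∧ (n - D.2).Prime})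
    (fun v => Good z K U N (fun i => c i + κ i * v i)) (fun v hv => ?_)
  intro d' d hd1 hd2 hd3 X hX
  have hd4 : d ≤ ⌊Real.log N ^ K⌋₊ := Nat.le_floor hd3
  have h2 := hv (d, d') (by rw [mem_product, mem_Icc, mem_range]; exact ⟨⟨by omega, hd4⟩, by omega⟩) X hX
  have e2 : ∀ i, (((c i + κ i * v i : ℕ)) : ℤ) = (c i : ℤ) + (κ i : ℤ) * (((v i : ℕ) : ℕ) : ℤ) := fun i => by
    push_cast; rfl
  rw [Pool.Agent.V11251.DS.DC_set' _ X z _ _ (triples d' d X) (continued d' d (fun i => c i + κ i * v i) X)
    (fun n => ∏ i, model z (n + (c i + κ i * v i)))] at h2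
  · exact h2
  · intro n
    unfold triples
    rw [mem_filter]
    exact Iff.rfl
  · intro n
    unfold continued triples
    rw [mem_filter, mem_filter, and_assoc]
    apply and_congr Iff.rfl
    apply and_congr Iff.rfl
    apply forall_congr'
    intro i
    rw [← e2]
    have h3 : (1 * (n : ℤ) + ((c i + κ i * v i : ℕ) : ℤ)).toNat = n + (c i + κ i * v i) := by omega
    rw [h3]
  · intro n _
    apply prod_congr rfl
    intro i _
    rw [← e2, Pool.Agent.V11251.DS.Mo_add]
    rfl

end Pool.Agent.Results.MP_1039f5_nt.PalindromicContinuations
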