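import Pool.Agent.H225.LF2

/-!
# Prime triples `p - d`, `p - d'`, `p`, uniformly in `d' < d`, with `p` in sparse sets given by digits

Let `b ≥ 2` be a base.  Write `p = M + t` with an arbitrary base point `M ≤ b^{EK}` and let the digits of
`t < b^K` be restricted: the `i`-th digit belongs to a set `A i`, where the sets `A i` are arbitrary,
depend on the place `i < K`, and have the only property that the number `∏ |A i|` of these `p` is at
least `e^{-δK} b^K`, where the constant `δ > 0` does not depend on `b`.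

Let `d' < d` be ANY positive integers, `d < M + b^{K-1}`, with `𝔖({0, d', d}) ≠ 0`.  Then (if the last
digit can be chosen such that these numbers are prime to `b`) at least `κ 𝔖 ∏ |A i| / K^3` of the `p` are
such that `p`, `p - d'` and `p - d` have at most `r` prime factors, all larger than `b^{K/r}`; and if
`d ≤ M`, the number of the `p` such that the three numbers are primes is at most `C 𝔖 ∏ |A i| / K^3`.
The constants do not depend on `d` and `d'`.
-/

set_option autoImplicit false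

namespace Pool.Agent.Results.MP_1039f5_nt.RestrictedDigits

open Finset Filter

/-- The number of residue classes modulo `p` which meet `S`. -/
def nu (S : Finset ℕ) (p : ℕ) : ℕ := (S.image (fun d => d % p)).card

/-- The singular series `∏_p (1 - 1/p)^(-|S|) (1 - ν_S(p)/p)`. -/
noncomputable def sing (S : Finset ℕ) : ℝ :=
  ∏' p : Nat.Primes, ((1 - 1 / ((p : ℕ) : ℝ))⁻¹) ^ S.card * (1 - (nu S p : ℝ) / ((p : ℕ) : ℝ))

open Classical in
/-- The number of the `t < b ^ K`, whose `i`-th digit in base `b` belongs to `A i` for all `i < K`, such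
that `M + t` belongs to `T`. -/
noncomputable def count (b K M : ℕ) (A : ℕ → Finset ℕ) (T : Set ℕ) : ℕ :=
  ((range (b ^ K)).filter (fun t => (∀ i < K, t / b ^ i % b ∈ A i) ∧ M + t ∈ T)).card

/-- The number of choices of the digits. -/
noncomputable def choices (K : ℕ) (A : ℕ → Finset ℕ) : ℝ := ∏ i ∈ range K, ((A i).card : ℝ)

/-- `m` has at most `r` prime factors, counted with multiplicity, and all of them are larger than
`z ^ (1 / r)`. -/
def AlmostPrime (r z m : ℕ) : Prop :=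
  (∀ p : ℕ, p.Prime → p ∣ m → z < p ^ r) ∧ m.primeFactorsList.length ≤ r

open Pool.Agent.Y816.PD (ND ND_sub)
open Pool.Agent.H225.LF (sg loc rt adm_of_sg lf)

/-- the shifts -/
def co (d' d : ℕ) : Fin 3 → ℤ := ![0, -(d' : ℤ), -(d : ℤ)]

lemma w_eq {d' d : ℕ} {p : ℕ} (hp : p.Prime) :
    rt (fun _ => 1) (co d' d) p = nu {0, d', d} p := by
  classical
  unfold rt nu
  congr 1
  ext q
  rw [mem_filter, mem_range, mem_image]
  have key : ∀ e : ℕ, q < p → ((p : ℤ) ∣ 1 * (q : ℤ) + (-(e : ℤ)) ↔ e % p = q) := by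
    intro e hq
    rw [one_mul, ← sub_eq_add_neg]
    constructor
    · intro h
      have h2 : (e : ℤ) ≡ q [ZMOD p] := Int.modEq_iff_dvd.2 h
      have h3 : e ≡ q [MOD p] := Int.natCast_modEq_iff.1 h2
      unfold Nat.ModEq at h3
      rw [h3, Nat.mod_eq_of_lt hq]
    · intro h
      have h3 : e ≡ q [MOD p] := by
        unfold Nat.ModEq
        rw [h, Nat.mod_eq_of_lt hq]
      exact (Int.natCast_modEq_iff.2 h3).dvd
  have c0 : co d' d 0 = -((0 : ℕ) : ℤ) := rfl
  have c1 : co d' d 1 = -(d' : ℤ) := rfl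
  have c2 : co d' d 2 = -(d : ℤ) := rfl
  constructor
  · rintro ⟨hq, i, hi⟩
    fin_cases i
    · exact ⟨0, by simp, (key 0 hq).1 hi⟩
    · exact ⟨d', by simp, (key d' hq).1 hi⟩
    · exact ⟨d, by simp, (key d hq).1 hi⟩
  · rintro ⟨e, he, heq⟩
    have hq : q < p := by
      rw [← heq]
      exact Nat.mod_lt _ hp.pos
    refine ⟨hq, ?_⟩
    simp only [mem_insert, mem_singleton] at he
    rcases he with rfl | rfl | rfl
    · exact ⟨0, (key 0 hq).2 heq⟩
    · exact ⟨1, (key _ hq).2 heq⟩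
    · exact ⟨2, (key _ hq).2 heq⟩

lemma sing_eq {d' d : ℕ} (h1 : 1 ≤ d') (h2 : d' < d) :
    sg 3 (rt (fun _ => 1) (co d' d)) = sing {0, d', d} := by
  have hc : ({0, d', d} : Finset ℕ).card = 3 := by
    rw [card_insert_of_notMem (by simp; omega), card_pair (by omega)]
  unfold sg sing loc
  rw [hc]
  exact tprod_congr fun p => by rw [w_eq p.2]

/-- **Prime triples, uniformly, at `p` with restricted digits.** -/
theorem result (E : ℕ) :
    ∃ δ : ℝ, 0 < δ ∧ ∃ r₀ : ℕ, 2 ≤ r₀ ∧ ∀ r : ℕ, r₀ ≤ r → ∀ b : ℕ, 2 ≤ b →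
      ∃ κ C : ℝ, 0 < κ ∧ 0 < C ∧ ∀ᶠ K : ℕ in atTop, ∀ M : ℕ, M ≤ b ^ (E * K) →
        ∀ d' d : ℕ, 1 ≤ d' → d' < d → d < M + b ^ (K - 1) → sing {0, d', d} ≠ 0 →
        ∀ A : ℕ → Finset ℕ, (∀ i < K, A i ⊆ range b) →
        (b : ℝ) ^ K ≤ Real.exp (δ * K) * choices K A →
        0 < sing {0, d', d} ∧
        ((∃ e ∈ A 0, ∀ h ∈ ({0, d', d} : Finset ℕ), Int.gcd ((M + e : ℕ) - h : ℤ) b = 1) →
          (∃ e ∈ A (K - 1), e ≠ 0) →
          κ * sing {0, d', d} * choices K A / (K : ℝ) ^ 3 ≤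
            count b K M A {p | d < p ∧ ∀ h ∈ ({0, d', d} : Finset ℕ),
              AlmostPrime r (b ^ K) (p - h)}) ∧
        (d ≤ M → (count b K M A {p | p.Prime ∧ (p - d').Prime ∧ (p - d).Prime} : ℝ) ≤
          C * sing {0, d', d} * choices K A / (K : ℝ) ^ 3) := by
  obtain ⟨δ, hδ, r₀, hr₀, h⟩ := lf 3 (E + 1) (by norm_num)
  refine ⟨δ, hδ, r₀, hr₀, fun r hr b hb => ?_⟩
  obtain ⟨κ, C, hκ, hC, h1⟩ := h r hr b hb
  refine ⟨κ, C, hκ, hC, ?_⟩
  filter_upwards [h1, eventually_ge_atTop 2] with K hK hK2 M hM d' d hd' hd'd hd hsing A hA hprod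
  have hbK : 2 ≤ b ^ (K - 1) := hb.trans (Nat.le_self_pow (by omega) b)
  have hbK' : b ^ (K - 1) ≤ b ^ K := Nat.pow_le_pow_right (by omega) (by omega)
  have hbb : b ^ ((E + 1) * K) = b ^ (E * K) * b ^ K := by
    rw [← pow_add]
    congr 1
    ring
  have hE1 : 1 ≤ b ^ (E * K) := Nat.one_le_pow _ _ (by omega)
  have hsz : M + b ^ (K - 1) ≤ b ^ ((E + 1) * K) + 1 := by
    rw [hbb]
    obtain ⟨X, hX⟩ : ∃ X, X = b ^ (E * K) := ⟨_, rfl⟩
    obtain ⟨Y, hY⟩ : ∃ Y, Y = b ^ K := ⟨_, rfl⟩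
    rw [← hX] at hM hE1 ⊢
    rw [← hY] at hbK' ⊢
    have : X + Y ≤ X * Y + 1 := by
      obtain ⟨x, rfl⟩ := Nat.exists_eq_add_of_le hE1
      obtain ⟨y, rfl⟩ := Nat.exists_eq_add_of_le (show 1 ≤ Y by omega)
      nlinarith [Nat.zero_le (x * y)]
    omega
  have hMle : M ≤ b ^ ((E + 1) * K) := by
    rw [hbb]
    exact hM.trans (Nat.le_mul_of_pos_right _ (by omega))
  have hone : 1 ≤ b ^ ((E + 1) * K) := Nat.one_le_pow _ _ (by omega)
  have hcs : ∀ i, (co d' d i).natAbs ≤ b ^ ((E + 1) * K) := by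
    intro i
    fin_cases i
    · exact Nat.zero_le _
    · change (-(d' : ℤ)).natAbs ≤ _
      omega
    · change (-(d : ℤ)).natAbs ≤ _
      omega
  have hac : ∀ i j, i ≠ j → 1 * co d' d j ≠ 1 * co d' d i := by
    intro i j hij
    rw [one_mul, one_mul]
    have c0 : co d' d 0 = 0 := rfl
    have c1 : co d' d 1 = -(d' : ℤ) := rfl
    have c2 : co d' d 2 = -(d : ℤ) := rfl
    fin_cases i <;> fin_cases j
    all_goals first
      | exact absurd rfl hij
      | (simp only [Fin.zero_eta, Fin.mk_one, Fin.reduceFinMk, c0, c1, c2]; omega)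
  rw [← sing_eq hd' hd'd] at hsing ⊢
  have hadm := adm_of_sg (fun _ => one_ne_zero) hac hsing
  obtain ⟨h2, h3, h4⟩ := hK M hMle (fun _ => 1) (co d' d) (fun _ => one_ne_zero)
    (fun _ => hone) hcs hac hadm A hA hprod
  have hval : ∀ q : ℕ, ∀ i, ∃ h ∈ ({0, d', d} : Finset ℕ), 1 * (q : ℤ) + co d' d i = (q : ℤ) - h := by
    intro q i
    fin_cases i
    · exact ⟨0, by simp, by change 1 * (q : ℤ) + 0 = q - ((0 : ℕ) : ℤ); push_cast; ring⟩
    · exact ⟨d', by simp, by change 1 * (q : ℤ) + (-(d' : ℤ)) = q - d'; ring⟩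
    · exact ⟨d, by simp, by change 1 * (q : ℤ) + (-(d : ℤ)) = q - d; ring⟩
  have hval' : ∀ q : ℕ, ∀ h ∈ ({0, d', d} : Finset ℕ), ∃ i, 1 * (q : ℤ) + co d' d i = (q : ℤ) - h := by
    intro q h hh
    simp only [mem_insert, mem_singleton] at hh
    rcases hh with rfl | rfl | rfl
    · exact ⟨0, by change 1 * (q : ℤ) + 0 = q - ((0 : ℕ) : ℤ); push_cast; ring⟩
    · exact ⟨1, by change 1 * (q : ℤ) + (-(h : ℤ)) = q - h; ring⟩
    · exact ⟨2, by change 1 * (q : ℤ) + (-(h : ℤ)) = q - h; ring⟩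
  refine ⟨h2, ?_, ?_⟩
  · rintro ⟨e, he, hc⟩ htop
    refine (h3 ⟨e, he, fun j => ?_⟩ htop).trans (Nat.cast_le.2 ?_)
    · obtain ⟨h, hh, hv⟩ := hval (M + e) j
      rw [hv]
      exact hc h hh
    · refine ND_sub fun n _ hn1 hn2 => ⟨hn1, ?_, fun h hh => ?_⟩
      · have := hn2.1
        omega
      · obtain ⟨i, hv⟩ := hval' (M + n) h hh
        have h5 := hn2.2 i
        rw [hv] at h5
        have hle : h ≤ M + n := by
          have h6 := hn2.1
          simp only [mem_insert, mem_singleton] at hh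
          rcases hh with rfl | rfl | rfl <;> omega
        have e1 : (((M + n : ℕ) : ℤ) - h).natAbs = M + n - h := by omega
        rw [e1] at h5
        exact h5
  · intro hdM
    refine le_trans (Nat.cast_le.2 ?_) h4
    refine ND_sub fun n _ hn1 hn2 => ⟨hn1, fun j => ?_⟩
    obtain ⟨hp1, hp2, hp3⟩ := hn2
    obtain ⟨h, hh, hv⟩ := hval (M + n) j
    have hle : h ≤ M := by
      simp only [mem_insert, mem_singleton] at hh
      rcases hh with rfl | rfl | rfl <;> omega
    have e1 : (((M + n : ℕ) : ℤ) - h).natAbs = M + n - h := by omega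
    have hpr : (M + n - h).Prime := by
      simp only [mem_insert, mem_singleton] at hh
      rcases hh with rfl | rfl | rfl
      · exact hp1
      · exact hp2
      · exact hp3
    rw [hv, e1]
    refine ⟨hpr, ?_⟩
    have h7 := hpr.two_le
    have h8 : n ≤ M + n - h := by omega
    nlinarith

end Pool.Agent.Results.MP_1039f5_nt.RestrictedDigits
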